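import Mathlib

set_option autoImplicit false

namespace Pool.Agent.Results.MP_5f76cf_al.Main

open MeasureTheory Set TopologicalSpace

/-- compatible left-invariant metrics -/
def CLI {G : Type} [Group G] [t : TopologicalSpace G] (m : MetricSpace G) : Prop :=
  m.toUniformSpace.toTopologicalSpace = t ∧ ∀ h g f : G, m.dist (h * g) (h * f) = m.dist g f

/-- maximal compatible left-invariant metrics -/
def Maxi {G : Type} [Group G] [TopologicalSpace G] (m : MetricSpace G) : Prop :=
  CLI m ∧ ∀ m' : MetricSpace G, CLI m' → ∃ K : ℝ, ∀ g f : G, m'.dist g f ≤ K * m.dist g f + K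

/-- amenability -/
def Amen (G : Type) [Group G] [TopologicalSpace G] : Prop :=
  ∀ (K : Type) [TopologicalSpace K] [CompactSpace K] [T2Space K] [Nonempty K] [MulAction G K]
    [ContinuousSMul G K] [MeasurableSpace K] [BorelSpace K],
    ∃ μ : Measure K, IsProbabilityMeasure μ ∧ ∀ g : G, μ.map (fun x => g • x) = μ

/-- affine isometric bijections of `H` -/
def AffIso {H : Type} [NormedAddCommGroup H] [InnerProductSpace ℝ H] (T : H → H) : Prop :=
  ∃ e : H ≃ᵃⁱ[ℝ] H, ⇑e = T

/-- a continuous affine isometric action on `H` with linearly growing cocycle -/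
def Act {G : Type} [Group G] [TopologicalSpace G] (d : G → G → ℝ) (H : Type)
    [NormedAddCommGroup H] [InnerProductSpace ℝ H] : Prop :=
  ∃ α : G → H → H, (∀ g, AffIso (α g)) ∧ (∀ g f ξ, α (g * f) ξ = α g (α f ξ)) ∧
    (Continuous fun p : G × H => α p.1 p.2) ∧ ∀ g, d g 1 - 1 ≤ ‖α g 0‖

theorem nonamen {G : Type} [Group G] [MetricSpace G] [IsTopologicalGroup G]
    (hr : ∀ g x y : G, dist (x * g) (y * g) = dist x y) (a c e : G) (q0 : G → ℝ)
    (h0 : ∀ g, q0 g ∈ Icc (0 : ℝ) 1) (hl : ∀ x y, q0 x ≤ q0 y + dist x y)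
    (h1 : ∀ g, 1 ≤ q0 g + q0 (a * g)) (h2 : ∀ g, q0 g + q0 (c * g) + q0 (e * g) ≤ 1) :
    ¬ Amen G := by
  intro h
  let S : Set (G → ℝ) := {q | (∀ g, q g ∈ Icc (0 : ℝ) 1) ∧ (∀ x y, q x ≤ q y + dist x y) ∧
    (∀ g, 1 ≤ q g + q (a * g)) ∧ ∀ g, q g + q (c * g) + q (e * g) ≤ 1}
  have hS : IsCompact S := by
    refine (isCompact_univ_pi fun _ : G => isCompact_Icc (a := (0 : ℝ)) (b := 1)).of_isClosed_subset
      ?_ fun q hq g _ => hq.1 g
    simp only [S, setOf_and, setOf_forall]
    refine (isClosed_iInter fun g => isClosed_Icc.preimage (continuous_apply g)).inter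
      ((isClosed_iInter fun x => isClosed_iInter fun y => isClosed_le ?_ ?_).inter
      ((isClosed_iInter fun g => isClosed_le ?_ ?_).inter
      (isClosed_iInter fun g => isClosed_le ?_ ?_))) <;> fun_prop
  haveI : CompactSpace S := isCompact_iff_compactSpace.1 hS
  haveI : Nonempty S := ⟨⟨q0, h0, hl, h1, h2⟩⟩
  letI : MulAction G S :=
    { smul := fun g q => ⟨fun x => q.1 (x * g), fun x => q.2.1 _,
        fun x y => hr g x y ▸ q.2.2.1 _ _, fun x => by simpa only [mul_assoc] using q.2.2.2.1 _,
        fun x => by simpa only [mul_assoc] using q.2.2.2.2 _⟩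
      one_smul := fun q => Subtype.ext (funext fun x => congrArg q.1 (mul_one x))
      mul_smul := fun g f q => Subtype.ext (funext fun x => congrArg q.1 (mul_assoc x g f).symm) }
  have hc : Continuous fun p : G × S => p.2.1 p.1 :=
    continuous_prod_of_continuous_lipschitzWith _ 1
      (fun g => (continuous_apply g).comp continuous_subtype_val)
      fun q => LipschitzWith.of_le_add q.2.2.1
  haveI : ContinuousSMul G S := ⟨Continuous.subtype_mk (continuous_pi fun x =>
    hc.comp (f := fun p : G × S => (x * p.1, p.2)) (by fun_prop)) _⟩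
  letI : MeasurableSpace S := borel S
  haveI : BorelSpace S := ⟨rfl⟩
  obtain ⟨μ, hμ, hi⟩ := h S
  have cq : ∀ g, Continuous fun q : S => q.1 g := fun g =>
    (continuous_apply g).comp continuous_subtype_val
  have iq : ∀ g, Integrable (fun q : S => q.1 g) μ := fun g =>
    (cq g).integrable_of_hasCompactSupport (HasCompactSupport.of_compactSpace _)
  have eq : ∀ g, ∫ q : S, q.1 g ∂μ = ∫ q : S, q.1 1 ∂μ := fun g => by
    conv_rhs => rw [← hi g, integral_map (continuous_const_smul g).measurable.aemeasurable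
      (cq 1).aestronglyMeasurable]
    exact congrArg _ (funext fun q => congrArg q.1 (one_mul g).symm)
  have a1 := integral_mono (integrable_const 1) ((iq 1).add (iq (a * 1))) fun q => q.2.2.2.1 1
  have a2 := integral_mono (((iq 1).add (iq (c * 1))).add (iq (e * 1))) (integrable_const 1)
    fun q => q.2.2.2.2 1
  simp only [Pi.add_apply] at a1 a2
  rw [integral_add (iq _) (iq _), eq (a * 1)] at a1
  rw [integral_add (by exact (iq _).add (iq _)) (iq _), integral_add (iq _) (iq _), eq (c * 1),
    eq (e * 1)] at a2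
  simp only [integral_const, probReal_univ, smul_eq_mul, mul_one] at a1 a2
  linarith

abbrev X : Type := ℤ_[2]

abbrev L : Type := LocallyConstant X (FreeGroup Bool)

theorem count : Countable L := by
  classical
  haveI : Countable (Clopens X) := Clopens.countable_iff_secondCountable.2 inferInstance
  refine Function.Injective.countable (f := fun f : L => f.range_finite.toFinset.image
    fun γ => (γ, (⟨f ⁻¹' {γ}, f.isLocallyConstant.isClopen_fiber γ⟩ : Clopens X))) fun f g h => ?_
  ext x
  have := (Finset.ext_iff.1 h (f x, ⟨f ⁻¹' {f x}, f.isLocallyConstant.isClopen_fiber _⟩)).1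
    (Finset.mem_image_of_mem _ (by simp))
  obtain ⟨γ, -, h⟩ := Finset.mem_image.1 this
  obtain ⟨rfl, h⟩ := Prod.ext_iff.1 h
  exact ((Set.ext_iff.1 (congrArg SetLike.coe h) x).2 rfl).symm

theorem perm : ∃ σ : Equiv.Perm ℤ, ∀ n, 3 ∣ n ∨ 3 ∣ σ n := by
  haveI : Infinite {n : ℤ // 3 ∣ n} := Infinite.of_injective
    (fun n : ℤ => ⟨3 * n, by simp⟩) fun a b h => by simpa using h
  haveI : Infinite {n : ℤ // ¬ 3 ∣ n} := Infinite.of_injective
    (fun n : ℤ => ⟨3 * n + 1, by omega⟩) fun a b h => by simpa using h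
  obtain ⟨e⟩ := nonempty_equiv_of_countable (α := {n : ℤ // 3 ∣ n}) (β := {n : ℤ // ¬ 3 ∣ n})
  refine ⟨(Equiv.sumCompl _).symm.trans (((e.sumCongr e.symm).trans (Equiv.sumComm _ _)).trans
    (Equiv.sumCompl _)), fun n => (em _).imp_right fun h => ?_⟩
  simp [Equiv.sumCompl_symm_apply_of_neg h, (e.symm _).2]

theorem result : ∃ (G : Type) (_ : Group G) (_ : TopologicalSpace G) (_ : IsTopologicalGroup G)
    (m : MetricSpace G), Countable G ∧ Maxi m ∧ (∀ R : ℝ, ∃ g, R ≤ m.dist g 1) ∧
      Act m.dist ℝ ∧ ¬ Amen G := by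
  classical
  letI : MeasurableSpace X := borel X
  haveI : BorelSpace X := ⟨rfl⟩
  let μ : Measure X := Measure.addHaarMeasure ⊤
  haveI : IsProbabilityMeasure μ := ⟨Measure.addHaarMeasure_self⟩
  haveI : (nhdsWithin (0 : X) {0}ᶜ).NeBot := ⟨fun h => by
    haveI := discreteTopology_iff_isOpen_singleton_zero.2 ((isOpen_singleton_iff_punctured_nhds _).2 h)
    exact not_finite_iff_infinite.2 inferInstance (finite_of_compact_of_discrete (X := X))⟩
  have hcl : ∀ f g : L, IsClopen {x | f x ≠ g x} := fun f g => by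
    have := ((f⁻¹ * g).isLocallyConstant.isClopen_fiber 1).compl
    convert this using 1
    ext x
    simp [inv_mul_eq_one]
  letI : MetricSpace L :=
    { dist := fun f g => μ.real {x | f x ≠ g x}
      dist_self := fun f => by simp
      dist_comm := fun f g => by simp only [ne_comm]
      dist_triangle := fun f g h => (measureReal_mono (fun x hx => by
        by_contra hc
        simp only [mem_union, mem_setOf_eq, not_or, not_not] at hc
        exact hx (hc.1.trans hc.2))).trans (measureReal_union_le _ _)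
      eq_of_dist_eq_zero := fun {f g} h => by
        ext x
        have := (hcl f g).isOpen.measure_eq_zero_iff μ |>.1 ((measureReal_eq_zero_iff).1 h)
        by_contra hc
        exact (this ▸ hc : x ∈ (∅ : Set X)) }
  have hd : ∀ f g : L, dist f g = μ.real {x | f x ≠ g x} := fun _ _ => rfl
  have dl : ∀ h f g : L, dist (h * f) (h * g) = dist f g := fun h f g => by simp [hd]
  have dr : ∀ h f g : L, dist (f * h) (g * h) = dist f g := fun h f g => by simp [hd]
  have d1 : ∀ f g : L, dist f g ≤ 1 := fun f g => measureReal_le_one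
  haveI : IsTopologicalGroup L :=
    { continuous_mul := continuous_prod_of_continuous_lipschitzWith _ 1
        (fun f => (Isometry.of_dist_eq (dl f)).continuous)
        fun f => (Isometry.of_dist_eq (dr f)).lipschitz
      continuous_inv := (Isometry.of_dist_eq fun f g => by simp [hd]).continuous }
  have dG : ∀ g f : L × Multiplicative ℤ, dist g f =
      max (dist g.1 f.1) |((g.2.toAdd : ℤ) : ℝ) - f.2.toAdd| := fun _ _ => rfl
  refine ⟨L × Multiplicative ℤ, inferInstance, inferInstance, inferInstance, inferInstance,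
    by haveI := count; infer_instance, ⟨⟨rfl, fun h g f => by simp [dG, dl]⟩, ?_⟩, fun R => ?_,
    ⟨fun g => AffineIsometryEquiv.constVAdd ℝ ℝ ((g.2.toAdd : ℤ) : ℝ), fun g => ⟨_, rfl⟩,
      fun g f ξ => by simp [add_assoc], ?_, fun g => ?_⟩, ?_⟩
  · rintro m ⟨h1, h2⟩
    obtain ⟨ε, hε, hb⟩ : ∃ ε > 0, ∀ f : L, dist f 1 < ε → m.dist (f, 1) 1 < 1 := by
      have := @Metric.isOpen_ball _ m.toPseudoMetricSpace 1 1
      rw [h1] at this
      obtain ⟨ε, hε, hb⟩ := Metric.isOpen_iff.1 this 1
        (@Metric.mem_ball_self _ m.toPseudoMetricSpace _ _ one_pos)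
      exact ⟨ε, hε, fun f hf => hb (show dist _ _ < ε by simpa [dG, hε] using hf)⟩
    have tri : ∀ g f : L × Multiplicative ℤ, m.dist (g * f) 1 ≤ m.dist g 1 + m.dist f 1 :=
      fun g f => by
        rw [← h2 g f 1, mul_one, add_comm]
        exact m.dist_triangle _ _ _
    have hU : ∀ x : X, ∃ U, IsClopen U ∧ x ∈ U ∧ μ.real U < ε := fun x => by
      obtain ⟨V, a, b, c⟩ := Set.exists_isOpen_lt_of_lt (μ := μ) {x} (ENNReal.ofReal ε)
        (by simpa using hε)
      obtain ⟨U, u1, u2, u3⟩ := compact_exists_isClopen_in_isOpen b (a rfl)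
      exact ⟨U, u1, u2, (measureReal_mono u3).trans_lt
        (ENNReal.toReal_lt_of_lt_ofReal c)⟩
    choose U u1 u2 u3 using hU
    obtain ⟨s, hs⟩ := isCompact_univ.elim_finite_subcover U (fun x => (u1 x).isOpen)
      fun x _ => mem_iUnion.2 ⟨x, u2 x⟩
    have key : ∀ (s : Finset X) (f : L), (∀ x, f x ≠ 1 → ∃ y ∈ s, x ∈ U y) →
        m.dist (f, 1) 1 ≤ s.card := by
      intro s
      induction s using Finset.induction_on with
      | empty =>
        intro f hf
        have : f = 1 := by
          ext x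
          by_contra hc
          simpa using hf x hc
        rw [this]
        exact (m.dist_self 1).le.trans (by simp)
      | insert y s hy ih =>
        intro f hf
        have := tri (f.mulIndicator (u1 y), 1) (f.mulIndicator (u1 y).compl, 1)
        have e : f.mulIndicator (u1 y) * f.mulIndicator (u1 y).compl = f := by
          ext x
          by_cases h : x ∈ U y <;> simp [LocallyConstant.mulIndicator_apply_eq_if, h]
        have a := hb (f.mulIndicator (u1 y)) ((measureReal_mono fun x hx => by
          by_contra hc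
          exact hx (f.mulIndicator_of_notMem _ hc)).trans_lt (u3 y))
        have b := ih (f.mulIndicator (u1 y).compl) fun x hx => by
          by_cases h : x ∈ U y
          · exact absurd (f.mulIndicator_of_notMem _ (not_not.2 h)) hx
          · rw [f.mulIndicator_of_mem _ h] at hx
            obtain ⟨z, z1, z2⟩ := hf x hx
            exact ⟨z, (Finset.mem_insert.1 z1).resolve_left fun e => h (e ▸ z2), z2⟩
        rw [Prod.mk_mul_mk, e, mul_one] at this
        rw [Finset.card_insert_of_notMem hy]
        push_cast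
        linarith
    set t := m.dist (1, Multiplicative.ofAdd 1) 1
    have t0 : 0 ≤ t := @dist_nonneg _ m.toPseudoMetricSpace _ _
    have hn : ∀ n : ℕ, m.dist (1, Multiplicative.ofAdd (n : ℤ)) 1 ≤ t * n := fun n => by
      induction n with
      | zero => exact (m.dist_self 1).le.trans (by simp)
      | succ n ih =>
        have := tri (1, Multiplicative.ofAdd (n : ℤ)) (1, Multiplicative.ofAdd 1)
        rw [Prod.mk_mul_mk, mul_one, ← ofAdd_add] at this
        push_cast
        linarith
    have hz : ∀ n : ℤ, m.dist (1, Multiplicative.ofAdd n) 1 ≤ t * |(n : ℝ)| := fun n => by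
      obtain ⟨n, rfl | rfl⟩ := Int.eq_nat_or_neg n
      · simpa using hn n
      · rw [← h2 (1, Multiplicative.ofAdd (n : ℤ)), m.dist_comm]
        simpa [← ofAdd_add, ← Prod.one_eq_mk] using hn n
    refine ⟨t + s.card, fun g f => ?_⟩
    have a := tri ((f⁻¹ * g).1, 1) (1, (f⁻¹ * g).2)
    have b := key s (f⁻¹ * g).1 fun x _ => by simpa using hs (mem_univ x)
    have c := hz (f⁻¹ * g).2.toAdd
    have d : |(((f⁻¹ * g).2.toAdd : ℤ) : ℝ)| ≤ dist g f := by
      rw [dG]
      exact le_max_of_le_right (by simp [neg_add_eq_sub])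
    rw [Prod.mk_mul_mk, mul_one, one_mul, ← h2 f, mul_one, mul_inv_cancel_left] at a
    rw [ofAdd_toAdd] at c
    nlinarith [mul_le_mul_of_nonneg_left d t0, dist_nonneg (x := g) (y := f),
      Nat.cast_nonneg (α := ℝ) s.card]
  · obtain ⟨n, hn⟩ := exists_nat_ge R
    exact ⟨(1, Multiplicative.ofAdd n), by simpa [dG] using hn⟩
  · simp only [AffineIsometryEquiv.coe_constVAdd, vadd_eq_add]
    exact (continuous_of_discreteTopology (f := fun n : Multiplicative ℤ =>
      ((n.toAdd : ℤ) : ℝ)).comp (by fun_prop)).add continuous_snd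
  · have := d1 g.1 1
    have := abs_nonneg ((g.2.toAdd : ℤ) : ℝ)
    simp only [dG, AffineIsometryEquiv.coe_constVAdd, vadd_eq_add, add_zero, Real.norm_eq_abs,
      sub_le_iff_le_add, max_le_iff]
    exact ⟨by simpa using by linarith, by simp⟩
  obtain ⟨σ, hσ⟩ := perm
  let φ : FreeGroup Bool →* Equiv.Perm ℤ := FreeGroup.lift fun b => cond b σ (Equiv.addRight 1)
  let B : L → Set X := fun f => {x | 3 ∣ φ (f x) 0}
  have hB : ∀ f, MeasurableSet (B f) := fun f =>
    (f.isLocallyConstant {γ | 3 ∣ φ γ 0}).measurableSet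
  let c : Bool → L × Multiplicative ℤ := fun b => (LocallyConstant.const X (FreeGroup.of b), 1)
  refine nonamen (fun g x y => by simp [dG, dr]) (c true) (c false) (c false * c false)
    (fun g => μ.real (B g.1)) (fun g => ⟨measureReal_nonneg, measureReal_le_one⟩) (fun g f => ?_)
    (fun g => ?_) fun g => ?_
  · refine (measureReal_mono fun x hx => ?_).trans ((measureReal_union_le _ _).trans
      (add_le_add_right (le_max_left _ _) _))
    by_cases h : g.1 x = f.1 x
    · exact Or.inl (show 3 ∣ φ (f.1 x) 0 from h ▸ hx)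
    · exact Or.inr h
  · refine (probReal_univ (μ := μ)).ge.trans ((measureReal_mono fun x _ => ?_).trans
      (measureReal_union_le _ _))
    simpa [B, c, φ] using hσ _
  · rw [← measureReal_union _ (hB _), ← measureReal_union _ (hB _)]
    · exact measureReal_le_one
    · refine disjoint_left.2 fun x h1 h2 => ?_
      simp [B, c, φ] at h1 h2
      omega
    · refine disjoint_left.2 fun x h1 h2 => ?_
      simp [B, c, φ] at h1 h2
      omega

end Pool.Agent.Results.MP_5f76cf_al.Main
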